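import Pool.Agent.MP_ee8c61_ag.R3L.Low
import Pool.Agent.MP_ee8c61_ag.R3BK.Bk
import Pool.Agent.MP_ee8c61_ag.R3B.Out
import Pool.Agent.MP_ee8c61_ag.R3FT.Asm
import Pool.Agent.MP_ee8c61_ag.R3NC.Asm
import Pool.Agent.MP_ee8c61_ag.R3RB.Res
import Pool.Agent.MP_ee8c61_ag.N3.RBS

/-! The theorem with multiplicities for ideals in at most three variables. -/

namespace Pool.Agent.MP_ee8c61_ag.H95F

open Pool.Agent.MP_ee8c61_ag.N3 Pool.Agent.MP_ee8c61_ag.N3.Q3IZ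

theorem main2I : MainI2 :=
  mainI2_of (fun B => @Q3B.HH B) (fun A h1 h2 => exists_base A h1 h2) sbsi
    (Q3B.bout_of N3RB.srtI)
    fun _ _ _ _ _ _ _ hH hb hM hχ => N3.Q3BK.topM hb hM hχ (hH hM).1
      (N3.Q3FT.t2w N3.Q3IZ.pout siz N3.Q3NC.snc ⟨hM.gd.1, hb⟩ hM (hH hM).2)

theorem main3 (N : ℕ) (hN : N ≤ 3) : R3L.MainN N := R3L.upto3 main2I N hN

end Pool.Agent.MP_ee8c61_ag.H95F
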